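import Mathlib
import Pool.Agent.Lib.MP_543a09_nt.Defs
import Pool.Agent.Lib.MP_543a09_nt.Proof

/-!
# Density of lattice points visible along a polynomial (MP_543a09_nt): full answer to Q1

`VisibleAlong F a h` (file `Pool/Agent/Lib/MP_543a09_nt/Defs.lean`) is visibility of `(a, h)` along
`F` exactly as in the problem file.
-/

open Polynomial Filter Topology
open Pool.Agent.Lib.MP_543a09_nt

namespace Pool.Agent.Results.MP_543a09_nt.DensityOne

/-- If `F` in `ℤ[x]` has positive leading coefficient and at least two distinct complex roots, then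
the density of the points of `{1, ..., N} ^ 2` visible along `F` exists and equals `1`. -/
theorem result (F : ℤ[X]) (hl : 0 < F.leadingCoeff)
    (hroots : ∃ z w : ℂ, z ≠ w ∧ aeval z F = 0 ∧ aeval w F = 0) :
    Tendsto (fun N : ℕ =>
      (Set.ncard {x : ℕ × ℕ | x.1 ∈ Set.Icc 1 N ∧ x.2 ∈ Set.Icc 1 N ∧ VisibleAlong F x.1 x.2} : ℝ)
        / (N : ℝ) ^ 2) atTop (𝓝 1) :=
  density_one F hl hroots

end Pool.Agent.Results.MP_543a09_nt.DensityOne
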